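import Pool.Agent.PLX.StmtsB

/-!
# Row BLF of squad PLX (MP_1fc801_co): the family of narrow blocks
-/

set_option autoImplicit false

namespace Pool.Agent.PLX.H81

open Finset

/-- **BLF** -/
theorem blf : BlfStmt := by
  classical
  intro A _ _ E _ _ Φ f G Θ s T hd hs hsn hT
  obtain ⟨n, hn⟩ : ∃ n : ℕ, n = Θ.card := ⟨_, rfl⟩
  rw [← hn] at hsn ⊢
  obtain ⟨m, hm⟩ : ∃ m : ℕ, m = n / s := ⟨_, rfl⟩
  have hm1 : 1 ≤ m := by
    rw [hm]
    exact Nat.div_pos hsn hs
  have hmn : m * s ≤ n := by
    rw [hm]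
    exact Nat.div_mul_le_self n s
  have hnm : n ≤ 2 * m * s := by
    have h1 := Nat.div_add_mod n s
    have h2 := Nat.mod_lt n (by omega : s > 0)
    rw [← hm] at h1
    have h3 : s * 1 ≤ s * m := Nat.mul_le_mul_left s hm1
    calc n = s * m + n % s := h1.symm
      _ ≤ s * m + s * m := by omega
      _ = 2 * m * s := by ring
  have hm0 : (0 : ℝ) < m := by exact_mod_cast hm1
  have hT0 : 0 < T := by
    have h1 := one_le_cnt hd (by norm_num : (0 : ℝ) ≤ 8)
    have h2 : (1 : ℝ) ≤ (cnt f G 8 : ℝ) := by exact_mod_cast h1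
    linarith
  -- the sorted slopes
  obtain ⟨σ, hσm, hσΘ⟩ : ∃ σ : ℕ → ℝ, (∀ i j, i < j → j < n → σ i < σ j) ∧ ∀ i < n, σ i ∈ Θ := by
    refine ⟨fun i => if h : i < n then Θ.orderEmbOfFin hn.symm ⟨i, h⟩ else 0, ?_, ?_⟩
    · intro i j hij hj
      have hi : i < n := hij.trans hj
      show (if h : i < n then Θ.orderEmbOfFin hn.symm ⟨i, h⟩ else 0) <
        (if h : j < n then Θ.orderEmbOfFin hn.symm ⟨j, h⟩ else 0)
      rw [dif_pos hi, dif_pos hj]
      exact (Θ.orderEmbOfFin hn.symm).strictMono hij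
    · intro i hi
      show (if h : i < n then Θ.orderEmbOfFin hn.symm ⟨i, h⟩ else 0) ∈ Θ
      rw [dif_pos hi]
      exact Θ.orderEmbOfFin_mem hn.symm _
  have hσi : ∀ i j, i < n → j < n → σ i = σ j → i = j := by
    intro i j hi hj h
    rcases lt_trichotomy i j with h1 | h1 | h1
    · exact absurd h (hσm i j h1 hj).ne
    · exact h1
    · exact absurd h (hσm j i h1 hi).ne'
  have hidx : ∀ k < m, ∀ i < s, k * s + i < n := by
    intro k hk i hi
    have h1 : (k + 1) * s ≤ m * s := Nat.mul_le_mul_right s hk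
    calc k * s + i < k * s + s := by omega
      _ = (k + 1) * s := by ring
      _ ≤ m * s := h1
      _ ≤ n := hmn
  -- the blocks
  obtain ⟨W, hW⟩ : ∃ W : ℕ → Finset ℝ, W = fun k => (range s).image fun i => σ (k * s + i) :=
    ⟨_, rfl⟩
  have memW : ∀ k t, t ∈ W k ↔ ∃ i < s, σ (k * s + i) = t := by
    intro k t
    rw [hW]
    simp only [Finset.mem_image, Finset.mem_range]
  have hWd : ∀ k < m, ∀ l < m, k ≠ l → Disjoint (W k) (W l) := by
    intro k hk l hl hkl
    rw [Finset.disjoint_left]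
    intro t h1 h2
    obtain ⟨i, hi, h3⟩ := (memW k t).mp h1
    obtain ⟨j, hj, h4⟩ := (memW l t).mp h2
    have h5 := hσi _ _ (hidx k hk i hi) (hidx l hl j hj) (h3.trans h4.symm)
    apply hkl
    have h6 : (k * s + i) / s = k := by
      rw [mul_comm, Nat.mul_add_div (by omega), Nat.div_eq_of_lt hi, add_zero]
    have h7 : (l * s + j) / s = l := by
      rw [mul_comm, Nat.mul_add_div (by omega), Nat.div_eq_of_lt hj, add_zero]
    rw [← h6, ← h7, h5]
  have hWs : ∀ k < m, (W k).card = s := by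
    intro k hk
    rw [hW]
    show ((range s).image fun i => σ (k * s + i)).card = s
    rw [Finset.card_image_of_injOn, Finset.card_range]
    intro i hi j hj hij
    have hi' : i < s := Finset.mem_range.mp hi
    have hj' : j < s := Finset.mem_range.mp hj
    have := hσi _ _ (hidx k hk i hi') (hidx k hk j hj') hij
    omega
  -- the cones
  obtain ⟨C, hC⟩ : ∃ C : ℕ → Finset A,
      C = fun k => cone Φ f G 8 (σ (k * s)) (σ (k * s + (s - 1))) := ⟨_, rfl⟩
  have hCd : ∀ k < m, ∀ l < m, k < l → Disjoint (C k) (C l) := by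
    intro k hk l hl hkl
    rw [Finset.disjoint_left]
    intro x h1 h2
    rw [hC] at h1 h2
    have h3 := (mem_cone hd).mp h1
    have h4 := (mem_cone hd).mp h2
    have h5 : σ (k * s + (s - 1)) < σ (l * s) := by
      have h6 : (k + 1) * s ≤ l * s := Nat.mul_le_mul_right s hkl
      have h7 : k * s + (s - 1) < l * s := by
        calc k * s + (s - 1) < k * s + s := by omega
          _ = (k + 1) * s := by ring
          _ ≤ l * s := h6
      have h8 := hidx l hl 0 (by omega)
      rw [add_zero] at h8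
      exact hσm _ _ h7 h8
    have h6 := h3.2.2.2.2
    have h7 := h4.2.2.2.1
    have h8 := mul_lt_mul_of_pos_right h5 h3.2.2.1
    linarith
  have hCsum : ∑ k ∈ range m, (C k).card ≤ cnt f G 8 := by
    rw [← Finset.card_biUnion]
    · refine Finset.card_le_card ?_
      intro x hx
      obtain ⟨k, -, h1⟩ := Finset.mem_biUnion.mp hx
      rw [hC] at h1
      have h2 := (mem_cone hd).mp h1
      exact (mem_bl hd).mpr ⟨h2.1, h2.2.1⟩
    · intro k hk l hl hkl
      have hk' := Finset.mem_range.mp hk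
      have hl' := Finset.mem_range.mp hl
      rcases lt_or_gt_of_ne hkl with h | h
      · exact hCd k hk' l hl' h
      · exact (hCd l hl' k hk' h).symm
  have hCsumR : ∑ k ∈ range m, ((C k).card : ℝ) ≤ T := by
    have h1 : ∑ k ∈ range m, ((C k).card : ℝ) ≤ (cnt f G 8 : ℝ) := by exact_mod_cast hCsum
    exact h1.trans hT
  -- the good blocks
  obtain ⟨Q, hQ⟩ : ∃ Q : Finset ℕ, Q = (range m).filter fun k => ((C k).card : ℝ) * m ≤ 2 * T :=
    ⟨_, rfl⟩
  have hQm : ∀ k ∈ Q, k < m ∧ ((C k).card : ℝ) * m ≤ 2 * T := by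
    intro k hk
    rw [hQ] at hk
    have := Finset.mem_filter.mp hk
    exact ⟨Finset.mem_range.mp this.1, this.2⟩
  have hQc : m ≤ 2 * Q.card := by
    obtain ⟨P, hP⟩ : ∃ P : Finset ℕ,
        P = (range m).filter fun k => ¬ ((C k).card : ℝ) * m ≤ 2 * T := ⟨_, rfl⟩
    have h1 : Q.card + P.card = m := by
      have h2 := Finset.card_filter_add_card_filter_not (s := range m)
        (fun k => ((C k).card : ℝ) * m ≤ 2 * T)
      rw [Finset.card_range] at h2
      rw [hQ, hP]
      exact h2
    have h3 : (P.card : ℝ) * (2 * T) ≤ T * m := by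
      calc (P.card : ℝ) * (2 * T) = ∑ k ∈ P, 2 * T := by
            rw [Finset.sum_const, nsmul_eq_mul]
        _ ≤ ∑ k ∈ P, ((C k).card : ℝ) * m := by
            refine Finset.sum_le_sum fun k hk => ?_
            rw [hP] at hk
            exact (not_le.mp (Finset.mem_filter.mp hk).2).le
        _ ≤ ∑ k ∈ range m, ((C k).card : ℝ) * m := by
            refine Finset.sum_le_sum_of_subset_of_nonneg ?_ fun k _ _ => by positivity
            rw [hP]
            exact Finset.filter_subset _ _
        _ = (∑ k ∈ range m, ((C k).card : ℝ)) * m := (Finset.sum_mul _ _ _).symm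
        _ ≤ T * m := mul_le_mul_of_nonneg_right hCsumR hm0.le
    have h4 : (P.card : ℝ) * 2 ≤ m := by
      have h5 : T * ((P.card : ℝ) * 2) ≤ T * m := by
        calc T * ((P.card : ℝ) * 2) = (P.card : ℝ) * (2 * T) := by ring
          _ ≤ T * m := h3
      exact le_of_mul_le_mul_left h5 hT0
    have h5 : P.card * 2 ≤ m := by exact_mod_cast h4
    omega
  have hWinj : Set.InjOn W Q := by
    intro k hk l hl hkl
    by_contra h
    have h1 := hWd k (hQm k hk).1 l (hQm l hl).1 h
    have h2 : W k = ∅ := by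
      have h3 : Disjoint (W k) (W k) := by
        have h4 := h1
        rw [← hkl] at h4
        exact h4
      exact Finset.disjoint_self_iff_empty _ |>.mp h3
    have h3 := hWs k (hQm k hk).1
    rw [h2, Finset.card_empty] at h3
    omega
  refine ⟨Q.image W, ?_, ?_, ?_⟩
  · intro V hV
    obtain ⟨k, hk, rfl⟩ := Finset.mem_image.mp hV
    obtain ⟨hkm, hkc⟩ := hQm k hk
    refine ⟨?_, hWs k hkm, σ (k * s), σ (k * s + (s - 1)), ?_, ?_⟩
    · intro t ht
      obtain ⟨i, hi, rfl⟩ := (memW k t).mp ht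
      exact hσΘ _ (hidx k hkm i hi)
    · intro t ht
      obtain ⟨i, hi, rfl⟩ := (memW k t).mp ht
      constructor
      · rcases Nat.eq_zero_or_pos i with h | h
        · rw [h, add_zero]
        · exact (hσm _ _ (by omega) (hidx k hkm i hi)).le
      · rcases Nat.lt_or_ge i (s - 1) with h | h
        · exact (hσm _ _ (by omega) (hidx k hkm (s - 1) (by omega))).le
        · have : i = s - 1 := by omega
          rw [this]
    · have h1 : ((C k).card : ℝ) * n ≤ 4 * s * T := by
        have h2 : (n : ℝ) ≤ 2 * m * s := by exact_mod_cast hnm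
        calc ((C k).card : ℝ) * n ≤ ((C k).card : ℝ) * (2 * m * s) :=
              mul_le_mul_of_nonneg_left h2 (Nat.cast_nonneg _)
          _ = (((C k).card : ℝ) * m) * (2 * s) := by ring
          _ ≤ (2 * T) * (2 * s) := mul_le_mul_of_nonneg_right hkc (by positivity)
          _ = 4 * s * T := by ring
      rw [hC] at h1
      exact h1
  · intro V hV V' hV' hne
    obtain ⟨k, hk, rfl⟩ := Finset.mem_image.mp hV
    obtain ⟨l, hl, rfl⟩ := Finset.mem_image.mp hV'
    exact hWd k (hQm k hk).1 l (hQm l hl).1 fun h => hne (by rw [h])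
  · rw [Finset.card_image_of_injOn hWinj]
    calc n ≤ 2 * m * s := hnm
      _ ≤ 2 * (2 * Q.card) * s := Nat.mul_le_mul_right s (Nat.mul_le_mul_left 2 hQc)
      _ = 4 * s * Q.card := by ring

end Pool.Agent.PLX.H81
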