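import Pool.Agent.PLX.StmtsB

/-!
# Row TPL of squad PLX (MP_1fc801_co): pigeonhole over the universal finite set of multipliers
-/

set_option autoImplicit false

namespace Pool.Agent.PLX.H81

open Finset

theorem indep_mul {e : ℕ} {w : Fin e → ℝ} {c : Fin e → ℕ} (hw : LinearIndependent ℚ w)
    (hc : ∀ i, 1 ≤ c i) : LinearIndependent ℚ (fun i => (c i : ℝ) * w i) := by
  rw [Fintype.linearIndependent_iff] at hw ⊢
  intro g hg i
  have h1 := hw (fun i => g i * c i) (by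
    rw [← hg]
    refine Finset.sum_congr rfl fun i _ => ?_
    rw [Rat.smul_def, Rat.smul_def]
    push_cast
    ring) i
  have h2 : (c i : ℚ) ≠ 0 := by
    have := hc i
    exact_mod_cast (by omega : c i ≠ 0)
  exact (mul_eq_zero.mp h1).resolve_right h2

/-- the constants of the pigeonhole argument -/
theorem constants {e : ℕ} {κ K j T D n x x' : ℝ} (hκ : 1 ≤ κ) (hK : 1 ≤ K)
    (hj : 0 < j) (hD : 1 ≤ D) (hT : 1 ≤ T) (hn0 : 0 ≤ n) (hx'0 : 0 < x')
    (hxx : x ≤ T * x') (hn : n ≤ D * x * j ^ 2)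
    (h : (3 * κ * K) ^ (e * (2 * e + 1)) * (D * T) ^ e < j) :
    κ ^ e * ((3 * K) ^ e / j) ≤ 1 ∧
      (κ ^ e * ((3 * K) ^ e / j)) ^ (2 * e + 1) * n ^ e < x' ^ e := by
  have hDT : 1 ≤ D * T := by nlinarith
  have hDTe : 1 ≤ (D * T) ^ e := one_le_pow₀ hDT
  have hκK : 1 ≤ 3 * κ * K := by nlinarith [mul_le_mul hκ hK (by norm_num) (by linarith)]
  have hQ : κ ^ e * ((3 * K) ^ e / j) = (3 * κ * K) ^ e / j := by
    rw [← mul_div_assoc, ← mul_pow]
    congr 2
    ring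
  rw [hQ]
  constructor
  · rw [div_le_one hj]
    calc (3 * κ * K) ^ e ≤ (3 * κ * K) ^ (e * (2 * e + 1)) :=
          pow_le_pow_right₀ hκK (by nlinarith)
      _ = (3 * κ * K) ^ (e * (2 * e + 1)) * 1 := (mul_one _).symm
      _ ≤ (3 * κ * K) ^ (e * (2 * e + 1)) * (D * T) ^ e :=
          mul_le_mul_of_nonneg_left hDTe (by positivity)
      _ ≤ j := h.le
  · have h1 : n ≤ D * T * x' * j ^ 2 := by
      refine hn.trans ?_
      calc D * x * j ^ 2 ≤ D * (T * x') * j ^ 2 :=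
            mul_le_mul_of_nonneg_right (mul_le_mul_of_nonneg_left hxx (by linarith))
              (by positivity)
        _ = D * T * x' * j ^ 2 := by ring
    have h2 : n ^ e ≤ (D * T) ^ e * x' ^ e * (j ^ 2) ^ e := by
      rw [← mul_pow, ← mul_pow]
      exact pow_le_pow_left₀ hn0 h1 e
    have hx'e : 0 < x' ^ e := by positivity
    have hj2 : (0 : ℝ) < j ^ (2 * e + 1) := by positivity
    rw [div_pow, ← pow_mul]
    calc (3 * κ * K) ^ (e * (2 * e + 1)) / j ^ (2 * e + 1) * n ^ e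
        ≤ (3 * κ * K) ^ (e * (2 * e + 1)) / j ^ (2 * e + 1) *
          ((D * T) ^ e * x' ^ e * (j ^ 2) ^ e) :=
          mul_le_mul_of_nonneg_left h2 (by positivity)
      _ = ((3 * κ * K) ^ (e * (2 * e + 1)) * (D * T) ^ e) * x' ^ e *
          ((j ^ 2) ^ e / j ^ (2 * e + 1)) := by ring
      _ = ((3 * κ * K) ^ (e * (2 * e + 1)) * (D * T) ^ e) * x' ^ e * (1 / j) := by
          congr 1
          rw [← pow_mul, pow_succ, div_mul_eq_div_div, div_self (by positivity)]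
      _ < j * x' ^ e * (1 / j) :=
          mul_lt_mul_of_pos_right (mul_lt_mul_of_pos_right h hx'e) (by positivity)
      _ = x' ^ e := by field_simp

/-- **TPL** -/
theorem tpl (hrts : RtsStmt) (hfnl : FnlStmt) : TplStmt := by
  classical
  intro A _ _ E _ _ Φ f G e m X K j T D hd hfd hrk he hK hj hD hpr hT hX hcnt hlarge
  obtain ⟨S, hSc, hS⟩ := hrts e m
  rcases X.eq_empty_or_nonempty with hX0 | hXne
  · left
    rw [hX0, Finset.card_empty, Nat.cast_zero, hT]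
    positivity
  -- the choice
  have hch : ∀ x : A, ∃ p : (Fin e → ℕ) × (Fin e → ℝ), x ∈ X → (LinearIndependent ℚ p.2 ∧
      ∀ i, 1 ≤ p.1 i ∧ (p.1 i : ℝ) ≤ K ∧ Alg e m (p.2 i) ∧
        ∃ y ∈ G, Φ y = (((p.1 i : ℝ) * p.2 i : ℝ) : ℂ) * Φ x ∧ ‖f y‖ ≤ K * ‖f x‖) := by
    intro x
    by_cases hx : x ∈ X
    · obtain ⟨w, c, h1, h2⟩ := (hX x hx).2.2
      exact ⟨(c, w), fun _ => ⟨h1, h2⟩⟩
    · exact ⟨(fun _ => 0, fun _ => 0), fun h => absurd h hx⟩
  choose φ hφ using hch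
  obtain ⟨B, hB⟩ : ∃ B : Finset ((Fin e → ℕ) × (Fin e → ℝ)),
      B = (Fintype.piFinset fun _ : Fin e => range (⌊K⌋₊ + 1)) ×ˢ
        (Fintype.piFinset fun _ : Fin e => S) := ⟨_, rfl⟩
  have hφB : ∀ x ∈ X, φ x ∈ B := by
    intro x hx
    rw [hB]
    refine Finset.mem_product.mpr ⟨Fintype.mem_piFinset.mpr fun i => ?_,
      Fintype.mem_piFinset.mpr fun i => hS _ ((hφ x hx).2 i).2.2.1⟩
    rw [Finset.mem_range, Nat.lt_succ_iff]
    exact Nat.le_floor ((hφ x hx).2 i).2.1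
  have hBne : B.Nonempty := by
    obtain ⟨x, hx⟩ := hXne
    exact ⟨φ x, hφB x hx⟩
  have hB1 : (1 : ℝ) ≤ B.card := by exact_mod_cast Finset.card_pos.mpr hBne
  have hB0 : (0 : ℝ) < B.card := by linarith
  have hBT : (B.card : ℝ) ≤ T := by
    rw [hB, Finset.card_product, Fintype.card_piFinset_const, Fintype.card_piFinset_const,
      Finset.card_range, ← mul_pow, hT]
    push_cast
    refine pow_le_pow_left₀ (by positivity) ?_ e
    refine mul_le_mul ?_ ?_ (by positivity) (by linarith)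
    · have := Nat.floor_le (by linarith : (0 : ℝ) ≤ K)
      linarith
    · exact_mod_cast hSc
  have hT1 : 1 ≤ T := hB1.trans hBT
  have hT0 : 0 < T := by linarith
  obtain ⟨p, -, hp⟩ := Finset.exists_le_card_fiber_of_nsmul_le_card_of_maps_to
    (b := (X.card : ℝ) / B.card) hφB hBne (by
      rw [nsmul_eq_mul, mul_div_cancel₀ _ hB0.ne'])
  obtain ⟨X', hX'⟩ : ∃ X' : Finset A, X' = X.filter fun x => φ x = p := ⟨_, rfl⟩
  rw [← hX'] at hp
  have hXX' : (X.card : ℝ) ≤ T * X'.card := by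
    rw [div_le_iff₀ hB0] at hp
    calc (X.card : ℝ) ≤ X'.card * B.card := hp
      _ ≤ X'.card * T := mul_le_mul_of_nonneg_left hBT (Nat.cast_nonneg _)
      _ = T * X'.card := mul_comm _ _
  rcases le_or_gt (X'.card : ℝ) (2 ^ (2 * e)) with hsm | hbig
  · left
    exact hXX'.trans (mul_le_mul_of_nonneg_left hsm hT0.le)
  · right
    have hX'0r : (0 : ℝ) < X'.card := lt_trans (by positivity) hbig
    have hX'0 : 0 < X'.card := by exact_mod_cast hX'0r
    have hmem : ∀ x ∈ X', x ∈ X ∧ φ x = p := by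
      intro x hx
      rw [hX'] at hx
      exact Finset.mem_filter.mp hx
    obtain ⟨x₀, hx₀⟩ := Finset.card_pos.mp hX'0
    have hp1 := hφ x₀ (hmem x₀ hx₀).1
    rw [(hmem x₀ hx₀).2] at hp1
    have hκ : (1 : ℝ) ≤ 16 * ((e : ℝ) + 1) ^ 2 := by
      have : (0 : ℝ) ≤ e := Nat.cast_nonneg _
      nlinarith
    obtain ⟨hc1, hc2⟩ := constants hκ hK hj hD hT1 (Nat.cast_nonneg (cnt f G 1)) hX'0r hXX'
      hcnt hlarge
    obtain ⟨z, hz, hzc⟩ := hfnl A E Φ f G e (fun i => (p.1 i : ℝ) * p.2 i) X' ((3 * K) ^ e / j)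
      hd hfd hrk he (indep_mul hp1.1 fun i => (hp1.2 i).1) (by positivity) hpr (by
        intro x hx
        obtain ⟨hxX, hxp⟩ := hmem x hx
        obtain ⟨h1, h2, -⟩ := hX x hxX
        have h3 := (hφ x hxX).2
        rw [hxp] at h3
        refine ⟨h1, ?_, fun i => ?_⟩
        · rw [le_div_iff₀ hj]
          refine h2.trans (pow_le_pow_left₀ (by norm_num) ?_ e)
          linarith
        · obtain ⟨y, hy, hΦ, hyn⟩ := (h3 i).2.2.2
          refine ⟨y, hy, hΦ, ?_⟩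
          rw [le_div_iff₀ hj]
          calc ‖f y‖ ^ e * j ≤ (K * ‖f x‖) ^ e * j :=
                mul_le_mul_of_nonneg_right (pow_le_pow_left₀ (norm_nonneg _) hyn e) hj.le
            _ = K ^ e * (‖f x‖ ^ e * j) := by rw [mul_pow]; ring
            _ ≤ K ^ e * 3 ^ e := mul_le_mul_of_nonneg_left h2 (by positivity)
            _ = (3 * K) ^ e := by rw [mul_pow]; ring) hc1 hc2 hbig
    refine ⟨z, hz, ?_⟩
    have hj2 : ((3 * K) ^ e / j) ^ 2 * j ^ 2 = (3 * K) ^ (2 * e) := by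
      rw [div_pow, div_mul_cancel₀ _ (by positivity), ← pow_mul, mul_comm e 2]
    calc (X.card : ℝ) * j ^ 2 ≤ (T * X'.card) * j ^ 2 :=
          mul_le_mul_of_nonneg_right hXX' (by positivity)
      _ = T * ((X'.card : ℝ) * j ^ 2) := by ring
      _ ≤ T * (((4 * e) ^ (2 * e) * ((3 * K) ^ e / j) ^ 2 * (cnt f (lz Φ G z) 1 : ℝ) ^ 2) *
          j ^ 2) :=
          mul_le_mul_of_nonneg_left (mul_le_mul_of_nonneg_right hzc (by positivity)) hT0.le
      _ = T * ((4 * e) ^ (2 * e) * (((3 * K) ^ e / j) ^ 2 * j ^ 2)) *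
          (cnt f (lz Φ G z) 1 : ℝ) ^ 2 := by ring
      _ = T * (12 * e * K) ^ (2 * e) * (cnt f (lz Φ G z) 1 : ℝ) ^ 2 := by
          rw [hj2, ← mul_pow]
          congr 3
          ring

end Pool.Agent.PLX.H81
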